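import Mathlib
import Pool.Agent.Run7.h407.D.Fin

/-!
Smoothness of integrals with a parameter, the vector potential, and a cut-off of divergence-free
fields.
-/

namespace Pool.Agent.Run7.h407.G.X

open Set Filter Topology MeasureTheory
open scoped ContDiff

theorem param_hasFDeriv {E' : Type} [NormedAddCommGroup E'] [NormedSpace ℝ E'] [CompleteSpace E']
    {F : ℝ × V → E'} (hF : ContDiff ℝ 1 F) (x : V) :
    HasFDerivAt (fun x => ∫ t in (0 : ℝ)..1, F (t, x))
      (∫ t in (0 : ℝ)..1, (fderiv ℝ F (t, x)).comp (ContinuousLinearMap.inr ℝ ℝ V)) x := by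
  have hc : Continuous (fun z : ℝ × V => (fderiv ℝ F z).comp (ContinuousLinearMap.inr ℝ ℝ V)) :=
    (hF.continuous_fderiv (by simp)).clm_comp continuous_const
  obtain ⟨C, hC⟩ := ((isCompact_Icc (a := (0 : ℝ)) (b := 1)).prod
    (isCompact_closedBall x 1)).exists_bound_of_continuousOn hc.continuousOn
  apply intervalIntegral.hasFDerivAt_integral_of_dominated_of_fderiv_le
    (s := Metric.closedBall x 1) (bound := fun _ => C)
    (F' := fun x t => (fderiv ℝ F (t, x)).comp (ContinuousLinearMap.inr ℝ ℝ V))
  · exact Metric.closedBall_mem_nhds x one_pos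
  · apply Eventually.of_forall
    intro y
    exact (hF.continuous.comp (by fun_prop : Continuous fun t : ℝ => (t, y))).aestronglyMeasurable
  · exact (hF.continuous.comp (by fun_prop : Continuous fun t : ℝ => (t, x))).intervalIntegrable _ _
  · exact (hc.comp (by fun_prop : Continuous fun t : ℝ => (t, x))).aestronglyMeasurable
  · apply Eventually.of_forall
    intro t ht y hy
    rw [uIoc_of_le zero_le_one] at ht
    exact hC (t, y) ⟨⟨ht.1.le, ht.2⟩, hy⟩
  · exact intervalIntegrable_const
  · apply Eventually.of_forall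
    intro t _ y _
    have h1 : HasFDerivAt F (fderiv ℝ F (t, y)) (t, y) :=
      (hF.differentiable (by simp) _).hasFDerivAt
    exact h1.comp y (hasFDerivAt_prodMk_right t y)

theorem param_contDiff (n : ℕ) : ∀ {E' : Type} [NormedAddCommGroup E'] [NormedSpace ℝ E']
    [CompleteSpace E'] {F : ℝ × V → E'}, ContDiff ℝ n F →
    ContDiff ℝ n (fun x => ∫ t in (0 : ℝ)..1, F (t, x)) := by
  induction n with
  | zero =>
    intro E' _ _ _ F hF
    rw [Nat.cast_zero, contDiff_zero] at hF ⊢
    apply intervalIntegral.continuous_parametric_intervalIntegral_of_continuous'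
    exact hF.comp (by fun_prop : Continuous fun z : V × ℝ => (z.2, z.1))
  | succ n ih =>
    intro E' _ _ _ F hF
    have hF' : ContDiff ℝ ((n : ℕ∞ω) + 1) F := by exact_mod_cast hF
    have hF1 : ContDiff ℝ 1 F := hF'.of_le (by simp)
    have h1 : ContDiff ℝ n (fun z : ℝ × V =>
        (fderiv ℝ F z).comp (ContinuousLinearMap.inr ℝ ℝ V)) :=
      (hF'.fderiv_right le_rfl).clm_comp contDiff_const
    have h2 := ih h1
    have h3 : ContDiff ℝ ((n : ℕ∞ω) + 1) (fun x => ∫ t in (0 : ℝ)..1, F (t, x)) := by
      rw [contDiff_succ_iff_hasFDerivAt]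
      exact ⟨_, h2, fun x => param_hasFDeriv hF1 x⟩
    exact_mod_cast h3

theorem param_smooth {F : ℝ × V → ℝ} (hF : ContDiff ℝ ∞ F) :
    Sm (fun x => ∫ t in (0 : ℝ)..1, F (t, x)) := by
  apply contDiff_infty.2
  intro n
  exact param_contDiff n (contDiff_infty.1 hF n)

theorem param_pd {F : ℝ × V → ℝ} (hF : ContDiff ℝ ∞ F) (j : Fin 3) (x : V) :
    pd j (fun x => ∫ t in (0 : ℝ)..1, F (t, x)) x
      = ∫ t in (0 : ℝ)..1, pd j (fun y => F (t, y)) x := by
  have h1 : ContDiff ℝ 1 F := hF.of_le (by simp)
  unfold pd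
  rw [(param_hasFDeriv h1 x).fderiv]
  have hc : Continuous (fun t : ℝ => (fderiv ℝ F (t, x)).comp (ContinuousLinearMap.inr ℝ ℝ V)) :=
    ((h1.continuous_fderiv (by simp)).comp
      (by fun_prop : Continuous fun t : ℝ => (t, x))).clm_comp continuous_const
  rw [ContinuousLinearMap.intervalIntegral_apply (hc.intervalIntegrable _ _)]
  congr 1
  funext t
  have h2 : HasFDerivAt F (fderiv ℝ F (t, x)) (t, x) :=
    (h1.differentiable (by simp) _).hasFDerivAt
  have h3 : HasFDerivAt (fun y => F (t, y))
      ((fderiv ℝ F (t, x)).comp (ContinuousLinearMap.inr ℝ ℝ V)) x :=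
    h2.comp x (hasFDerivAt_prodMk_right t x)
  rw [h3.fderiv]

variable {U : V → V}

/-- The integrand of the averages. -/
noncomputable def fI (U : V → V) (k : Fin 3) (z : ℝ × V) : ℝ := z.1 * U (z.1 • z.2) k

/-- The averages of the field along rays. -/
noncomputable def aI (U : V → V) (k : Fin 3) (x : V) : ℝ := ∫ t in (0 : ℝ)..1, fI U k (t, x)

theorem fI_sm (hU : CF U) (k : Fin 3) : ContDiff ℝ ∞ (fI U k) :=
  contDiff_fst.mul ((hU.smc k).comp (contDiff_fst.smul contDiff_snd))

theorem aI_sm (hU : CF U) (k : Fin 3) : Sm (aI U k) := param_smooth (fI_sm hU k)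

theorem pd_aI (hU : CF U) (j k : Fin 3) (x : V) :
    pd j (aI U k) x = ∫ t in (0 : ℝ)..1, t * (t * pd j (fun y => U y k) (t • x)) := by
  unfold aI
  rw [param_pd (fI_sm hU k)]
  congr 1
  funext t
  show pd j (fun y => t * (fun w => U w k) (t • y)) x = _
  have hd : Differentiable ℝ (fun w => U w k) := fun y => (hU.smc k).diff y
  have hd2 : DifferentiableAt ℝ (fun y => (fun w => U w k) (t • y)) x :=
    (hd (t • x)).comp x (differentiableAt_id.const_smul t)
  rw [pd_const_mul _ hd2, pd_comp_smul hd]

theorem aI_div (hU : CF U) (hd : ∀ x, dvg U x = 0) (x : V) : ∑ k, pd k (aI U k) x = 0 := by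
  simp_rw [pd_aI hU]
  have hi : ∀ k, IntervalIntegrable (fun t : ℝ => t * (t * pd k (fun y => U y k) (t • x)))
      volume 0 1 := by
    intro k
    apply Continuous.intervalIntegrable
    have := ((hU.smc k).pd k).continuous
    fun_prop
  rw [← intervalIntegral.integral_finsetSum fun k _ => hi k]
  have e : ∀ t : ℝ, ∑ k, t * (t * pd k (fun y => U y k) (t • x)) = 0 := by
    intro t
    have h1 := hd (t • x)
    unfold dvg at h1
    simp_rw [← Finset.mul_sum]
    rw [h1]
    ring
  simp_rw [e]
  simp

theorem aI_euler (hU : CF U) (k : Fin 3) (x : V) :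
    2 * aI U k x + ∑ j, x j * pd j (aI U k) x = U x k := by
  simp_rw [pd_aI hU]
  unfold aI
  have c1 : ∀ j, Continuous (fun t : ℝ => pd j (fun y => U y k) (t • x)) := by
    intro j
    exact ((hU.smc k).pd j).continuous.comp (by fun_prop)
  have c0 : Continuous (fun t : ℝ => U (t • x) k) := (hU.smc k).continuous.comp (by fun_prop)
  have hi : ∀ j, IntervalIntegrable
      (fun t : ℝ => x j * (t * (t * pd j (fun y => U y k) (t • x)))) volume 0 1 := by
    intro j
    apply Continuous.intervalIntegrable
    have := c1 j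
    fun_prop
  have cf : Continuous (fun t : ℝ => fI U k (t, x)) := continuous_id.mul c0
  have hi0 : IntervalIntegrable (fun t : ℝ => 2 * fI U k (t, x)) volume 0 1 :=
    (continuous_const.mul cf).intervalIntegrable _ _
  have e1 : ∀ j, x j * ∫ t in (0 : ℝ)..1, t * (t * pd j (fun y => U y k) (t • x))
      = ∫ t in (0 : ℝ)..1, x j * (t * (t * pd j (fun y => U y k) (t • x))) := fun j =>
    (intervalIntegral.integral_const_mul _ _).symm
  simp_rw [e1]
  rw [← intervalIntegral.integral_const_mul, ← intervalIntegral.integral_finsetSum fun j _ => hi j,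
    ← intervalIntegral.integral_add hi0 (by
      apply Continuous.intervalIntegrable
      apply continuous_finsetSum
      intro j _
      have := c1 j
      fun_prop)]
  have hder : ∀ t : ℝ, HasDerivAt (fun t : ℝ => t ^ 2 * U (t • x) k)
      (2 * fI U k (t, x) + ∑ j, x j * (t * (t * pd j (fun y => U y k) (t • x)))) t := by
    intro t
    have h1 : HasFDerivAt (fun y => U y k) (fderiv ℝ (fun y => U y k) (t • x)) (t • x) :=
      ((hU.smc k).diff _).hasFDerivAt
    have h2 : HasDerivAt (fun t : ℝ => t • x) x t := by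
      have := (hasDerivAt_id t).smul_const x
      simpa using this
    have h3 := h1.comp_hasDerivAt t h2
    have h4 : HasDerivAt (fun t : ℝ => t ^ 2) (2 * t) t := by
      have := hasDerivAt_pow 2 t
      simpa using this
    have h5 := h4.mul h3
    refine h5.congr_deriv ?_
    have h6 : (fderiv ℝ (fun y => U y k) (t • x)) x
        = ∑ j, x j * pd j (fun y => U y k) (t • x) := by
      have h7 : x = ∑ j, x j • (Pi.single j 1 : V) := by
        funext i
        simp [Finset.sum_apply, Pi.single_apply]
      conv_lhs => rw [h7]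
      rw [map_sum]
      apply Finset.sum_congr rfl
      intro j _
      rw [map_smul, smul_eq_mul]
      unfold pd
      rw [← h7]
    show 2 * t * U (t • x) k + t ^ 2 * (fderiv ℝ (fun y => U y k) (t • x)) x = _
    rw [h6]
    unfold fI
    simp only
    rw [Finset.mul_sum]
    have h8 : ∀ j, t ^ 2 * (x j * pd j (fun y => U y k) (t • x))
        = x j * (t * (t * pd j (fun y => U y k) (t • x))) := fun j => by ring
    simp_rw [h8]
    ring
  have key := intervalIntegral.integral_eq_sub_of_hasDerivAt (a := 0) (b := 1)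
    (fun t _ => hder t) (by
      apply Continuous.intervalIntegrable
      apply (continuous_const.mul cf).add
      apply continuous_finsetSum
      intro j _
      have := c1 j
      fun_prop)
  rw [key]
  simp

/-- The components of the vector potential. -/
noncomputable def pot (U : V → V) (i : Fin 3) (x : V) : ℝ :=
  x (i + 1) * aI U i x - x i * aI U (i + 1) x

theorem pot_sm (hU : CF U) (i : Fin 3) : Sm (pot U i) :=
  ((coord_sm (i + 1)).mul (aI_sm hU i)).sub ((coord_sm i).mul (aI_sm hU (i + 1)))

theorem pd_pot (hU : CF U) (i j : Fin 3) (x : V) : pd j (pot U i) x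
    = (x (i + 1) * pd j (aI U i) x + (if i + 1 = j then 1 else 0) * aI U i x)
      - (x i * pd j (aI U (i + 1)) x + (if i = j then 1 else 0) * aI U (i + 1) x) := by
  have d1 : DifferentiableAt ℝ (fun y : V => y (i + 1)) x := (coord_sm (i + 1)).diff x
  have d2 : DifferentiableAt ℝ (fun y : V => y i) x := (coord_sm i).diff x
  have d3 := (aI_sm hU i).diff x
  have d4 := (aI_sm hU (i + 1)).diff x
  have d5 : DifferentiableAt ℝ (fun y : V => y (i + 1) * aI U i y) x := d1.mul d3
  have d6 : DifferentiableAt ℝ (fun y : V => y i * aI U (i + 1) y) x := d2.mul d4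
  show pd j (fun y => y (i + 1) * aI U i y - y i * aI U (i + 1) y) x = _
  rw [pd_sub d5 d6, pd_mul d1 d3, pd_mul d2 d4, pd_coord, pd_coord]

theorem curl_pot (hU : CF U) (hd : ∀ x, dvg U x = 0) (x : V) :
    ∑ i, Cu i (pot U i) x = U x := by
  have h1 := aI_div hU hd x
  rw [Fin.sum_univ_three] at h1
  funext k
  have h2 := aI_euler hU k x
  rw [Fin.sum_univ_three] at h2
  rw [Finset.sum_apply, Fin.sum_univ_three]
  unfold Cu
  fin_cases k
  · simp [pd_pot hU]
    simp at h2
    linear_combination h2 - x 0 * h1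
  · simp [pd_pot hU]
    simp at h2
    linear_combination h2 - x 1 * h1
  · simp [pd_pot hU]
    simp at h2
    linear_combination h2 - x 2 * h1

end Pool.Agent.Run7.h407.G.X
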