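import Mathlib
import Pool.Agent.Run7.h407.DZ.Par

/-!
Every divergence-free field can be made to vanish near the origin by a small perturbation in `L^r`
supported near the origin.
-/

namespace Pool.Agent.Run7.h407.G.X

open Set Filter Topology MeasureTheory
open scoped ContDiff

variable {U : V → V}

/-- A cut-off function. -/
noncomputable def bmp : ContDiffBump (0 : V) := ⟨1, 2, one_pos, one_lt_two⟩

/-- The rescaled cut-off function. -/
noncomputable def cts (s : ℝ) (x : V) : ℝ := bmp (s⁻¹ • x)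

theorem bmp_sm : Sm (fun x => bmp x) := bmp.contDiff

theorem bmp_cs : HasCompactSupport (fun x => bmp x) := bmp.hasCompactSupport

theorem cts_sm (s : ℝ) : Sm (cts s) := bmp_sm.comp (contDiff_const_smul _)

theorem cts_one {s : ℝ} (hs : 0 < s) {x : V} (hx : ‖x‖ ≤ s) : cts s x = 1 := by
  apply bmp.one_of_mem_closedBall
  rw [mem_closedBall_zero_iff, norm_smul, norm_inv, Real.norm_eq_abs, abs_of_pos hs]
  show s⁻¹ * ‖x‖ ≤ 1
  rw [inv_mul_le_iff₀ hs, mul_one]
  exact hx

theorem cts_zero {s : ℝ} (hs : 0 < s) {x : V} (hx : 2 * s ≤ ‖x‖) : cts s x = 0 := by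
  apply bmp.zero_of_le_dist
  rw [dist_zero_right, norm_smul, norm_inv, Real.norm_eq_abs, abs_of_pos hs]
  show 2 ≤ s⁻¹ * ‖x‖
  rw [le_inv_mul_iff₀ hs]
  linarith

theorem cts_le (s : ℝ) (x : V) : |cts s x| ≤ 1 := by
  unfold cts
  rw [abs_of_nonneg (bmp.nonneg' _)]
  exact bmp.le_one

theorem pd_cts (s : ℝ) (j : Fin 3) (x : V) :
    pd j (cts s) x = s⁻¹ * pd j (fun y => bmp y) (s⁻¹ • x) := by
  have hd : Differentiable ℝ (fun y => bmp y) := fun y => bmp_sm.diff y
  exact pd_comp_smul hd s⁻¹ x j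

/-- The truncated potentials. -/
noncomputable def tpot (U : V → V) (s : ℝ) (i : Fin 3) (x : V) : ℝ := cts s x * pot U i x

theorem tpot_sm (hU : CF U) (s : ℝ) (i : Fin 3) : Sm (tpot U s i) := (cts_sm s).mul (pot_sm hU i)

theorem tpot_zero {s : ℝ} (hs : 0 < s) (i : Fin 3) {x : V} (hx : 2 * s < ‖x‖) :
    ∀ᶠ y in 𝓝 x, tpot U s i y = 0 := by
  have ho : IsOpen {y : V | 2 * s < ‖y‖} := isOpen_lt continuous_const continuous_norm
  filter_upwards [ho.mem_nhds hx] with y hy
  have hy' : 2 * s < ‖y‖ := hy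
  unfold tpot
  rw [cts_zero hs hy'.le, zero_mul]

theorem tpot_cs {s : ℝ} (hs : 0 < s) (i : Fin 3) : HasCompactSupport (tpot U s i) := by
  apply HasCompactSupport.intro (isCompact_closedBall (0 : V) (2 * s))
  intro x hx
  rw [mem_closedBall_zero_iff, not_le] at hx
  exact (tpot_zero hs i hx).self_of_nhds

theorem aI_bound {M : ℝ} (hM : ∀ x, ‖U x‖ ≤ M) (k : Fin 3) (x : V) : |aI U k x| ≤ M := by
  have hM0 : 0 ≤ M := (norm_nonneg _).trans (hM 0)
  have h1 := intervalIntegral.norm_integral_le_of_norm_le_const (a := (0 : ℝ)) (b := 1)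
    (f := fun t => fI U k (t, x)) (C := M) (fun t ht => by
      rw [uIoc_of_le zero_le_one] at ht
      show ‖t * U (t • x) k‖ ≤ M
      rw [norm_mul, Real.norm_eq_abs, abs_of_pos ht.1]
      have h2 : ‖U (t • x) k‖ ≤ M := (norm_le_pi_norm _ k).trans (hM _)
      nlinarith [norm_nonneg (U (t • x) k), ht.2, ht.1])
  rw [sub_zero, abs_one, mul_one, Real.norm_eq_abs] at h1
  exact h1

theorem pot_bound {M : ℝ} (hM : ∀ x, ‖U x‖ ≤ M) (i : Fin 3) (x : V) :
    |pot U i x| ≤ 2 * M * ‖x‖ := by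
  have hM0 : 0 ≤ M := (norm_nonneg _).trans (hM 0)
  unfold pot
  have h1 := norm_le_pi_norm x (i + 1)
  have h2 := norm_le_pi_norm x i
  rw [Real.norm_eq_abs] at h1 h2
  have h3 := aI_bound hM i x
  have h4 := aI_bound hM (i + 1) x
  have h5 := abs_sub (x (i + 1) * aI U i x) (x i * aI U (i + 1) x)
  rw [abs_mul, abs_mul] at h5
  have h6 := mul_le_mul h1 h3 (abs_nonneg _) (norm_nonneg x)
  have h7 := mul_le_mul h2 h4 (abs_nonneg _) (norm_nonneg x)
  linarith

theorem tpot_pd_bound (hU : CF U) : ∃ B, 0 ≤ B ∧ ∀ s : ℝ, 0 < s → s ≤ 1 → ∀ i j x,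
    |pd j (tpot U s i) x| ≤ B := by
  obtain ⟨M, hM⟩ := hU.cs.exists_bound_of_continuous hU.sm.continuous
  have hM0 : 0 ≤ M := (norm_nonneg _).trans (hM 0)
  have hb : ∀ j, ∃ C, ∀ x, ‖pd j (fun y => bmp y) x‖ ≤ C := fun j =>
    (pd_cs bmp_cs j).exists_bound_of_continuous (bmp_sm.pd j).continuous
  choose C1 hC1 using hb
  have hC10 : ∀ j, 0 ≤ C1 j := fun j => (norm_nonneg _).trans (hC1 j 0)
  have hp : ∀ i j, ∃ C, ∀ x ∈ Metric.closedBall (0 : V) 2, ‖pd j (pot U i) x‖ ≤ C := fun i j =>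
    (isCompact_closedBall (0 : V) 2).exists_bound_of_continuousOn
      ((pot_sm hU i).pd j).continuous.continuousOn
  choose C2 hC2 using hp
  have hC20 : ∀ i j, 0 ≤ C2 i j := fun i j =>
    (norm_nonneg _).trans (hC2 i j 0 (by simp))
  refine ⟨4 * M * (∑ j, C1 j) + ∑ i, ∑ j, C2 i j, ?_, fun s hs hs1 i j x => ?_⟩
  · have s1 : 0 ≤ ∑ j, C1 j := Finset.sum_nonneg fun j _ => hC10 j
    have s2 : 0 ≤ ∑ i, ∑ j, C2 i j := Finset.sum_nonneg fun i _ =>
      Finset.sum_nonneg fun j _ => hC20 i j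
    positivity
  · have s1 : C1 j ≤ ∑ j, C1 j :=
      Finset.single_le_sum (f := C1) (fun i _ => hC10 i) (Finset.mem_univ j)
    have s2 : C2 i j ≤ ∑ i, ∑ j, C2 i j := by
      have h1 := Finset.single_le_sum (f := fun j => C2 i j) (fun k _ => hC20 i k)
        (Finset.mem_univ j)
      have h2 := Finset.single_le_sum (f := fun i => ∑ j, C2 i j)
        (fun i _ => Finset.sum_nonneg fun k _ => hC20 i k) (Finset.mem_univ i)
      exact h1.trans h2
    have s3 : 0 ≤ ∑ j, C1 j := Finset.sum_nonneg fun j _ => hC10 j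
    by_cases hx : ‖x‖ ≤ 2 * s
    · have e : pd j (tpot U s i) x
          = cts s x * pd j (pot U i) x + pd j (cts s) x * pot U i x := by
        have := pd_mul ((cts_sm s).diff x) ((pot_sm hU i).diff x) j
        exact this
      have hx2 : x ∈ Metric.closedBall (0 : V) 2 := by
        rw [mem_closedBall_zero_iff]
        linarith
      have k1 := hC2 i j x hx2
      have k2 := pot_bound hM i x
      have k3 := cts_le s x
      have k4 := hC1 j (s⁻¹ • x)
      rw [Real.norm_eq_abs] at k1 k4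
      rw [e, pd_cts]
      have a1 : |cts s x * pd j (pot U i) x| ≤ C2 i j := by
        rw [abs_mul]
        calc |cts s x| * |pd j (pot U i) x| ≤ 1 * C2 i j :=
              mul_le_mul k3 k1 (abs_nonneg _) zero_le_one
          _ = C2 i j := one_mul _
      have a2 : |s⁻¹ * pd j (fun y => bmp y) (s⁻¹ • x) * pot U i x| ≤ 4 * M * C1 j := by
        rw [abs_mul, abs_mul, abs_of_pos (inv_pos.2 hs)]
        have b1 : |pot U i x| ≤ 4 * M * s := by
          refine k2.trans ?_
          nlinarith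
        calc s⁻¹ * |pd j (fun y => bmp y) (s⁻¹ • x)| * |pot U i x|
            ≤ s⁻¹ * C1 j * (4 * M * s) := by
              apply mul_le_mul (mul_le_mul_of_nonneg_left k4 (inv_pos.2 hs).le) b1 (abs_nonneg _)
              exact mul_nonneg (inv_pos.2 hs).le (hC10 j)
          _ = 4 * M * C1 j := by
              field_simp
      have a3 := abs_add_le (cts s x * pd j (pot U i) x)
        (s⁻¹ * pd j (fun y => bmp y) (s⁻¹ • x) * pot U i x)
      have a4 : 4 * M * C1 j ≤ 4 * M * ∑ j, C1 j :=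
        mul_le_mul_of_nonneg_left s1 (by positivity)
      linarith
    · rw [not_le] at hx
      have h1 : tpot U s i =ᶠ[𝓝 x] fun _ => (0 : ℝ) := tpot_zero hs i hx
      rw [pd_congr h1, pd_const, abs_zero]
      have s4 : 0 ≤ ∑ i, ∑ j, C2 i j := Finset.sum_nonneg fun i _ =>
        Finset.sum_nonneg fun j _ => hC20 i j
      positivity

theorem Cu_bound {ψ : V → ℝ} {B : ℝ} (hB : 0 ≤ B) (h : ∀ j x, |pd j ψ x| ≤ B) (i : Fin 3) (x : V) :
    ‖Cu i ψ x‖ ≤ B := by
  rw [pi_norm_le_iff_of_nonneg hB]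
  intro k
  rw [Real.norm_eq_abs]
  unfold Cu
  by_cases h1 : k = i
  · simp only [if_pos h1]
    exact h _ x
  · by_cases h2 : k = i + 1
    · simp only [if_neg h1, if_pos h2]
      rw [abs_neg]
      exact h _ x
    · simp only [if_neg h1, if_neg h2]
      rw [abs_zero]
      exact hB

theorem exists_cut (hU : CF U) (hd : ∀ x, dvg U x = 0) {r ε : ℝ} (hr : 0 < r) (hε : 0 < ε) :
    ∃ F : V → V, CF F ∧ (∀ x, dvg F x = 0) ∧ (∀ x, F x ≠ 0 → ‖x‖ ≤ ε) ∧
      ∫ x, ‖F x‖ ^ r ≤ ε ∧ ∀ᶠ x in 𝓝 (0 : V), U x + F x = 0 := by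
  obtain ⟨B, hB0, hB⟩ := tpot_pd_bound hU
  set K : ℝ := (3 * B) ^ r * 64 with hK
  have hK0 : 0 ≤ K := by positivity
  set s : ℝ := min (min 1 (ε / 2)) (ε / (K + 1)) with hs
  have hs0 : 0 < s := lt_min (lt_min one_pos (by positivity)) (by positivity)
  have hs1 : s ≤ 1 := (min_le_left _ _).trans (min_le_left _ _)
  have hs2 : s ≤ ε / 2 := (min_le_left _ _).trans (min_le_right _ _)
  have hs3 : s ≤ ε / (K + 1) := min_le_right _ _
  have hcf : ∀ i, CF (Cu i (tpot U s i)) := fun i => Cu_CF (tpot_sm hU s i) (tpot_cs hs0 i) i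
  set F : V → V := fun x => (-1 : ℝ) • ((Cu 0 (tpot U s 0) x + Cu 1 (tpot U s 1) x)
    + Cu 2 (tpot U s 2) x) with hF
  have hFc : CF F := (((hcf 0).add (hcf 1)).add (hcf 2)).smul _
  have hFd : ∀ x, dvg F x = 0 := by
    intro x
    rw [hF, dvg_smul _ (((hcf 0).add (hcf 1)).add (hcf 2)), dvg_add ((hcf 0).add (hcf 1)) (hcf 2),
      dvg_add (hcf 0) (hcf 1), Cu_dvg (tpot_sm hU s 0), Cu_dvg (tpot_sm hU s 1),
      Cu_dvg (tpot_sm hU s 2)]
    ring
  have hz : ∀ i x, 2 * s < ‖x‖ → Cu i (tpot U s i) x = 0 := by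
    intro i x hx
    by_contra hcon
    have h1 := Cu_supp hcon
    have h2 : x ∉ tsupport (tpot U s i) := by
      rw [notMem_tsupport_iff_eventuallyEq]
      exact tpot_zero hs0 i hx
    exact h2 h1
  have hFs : ∀ x, F x ≠ 0 → ‖x‖ ≤ 2 * s := by
    intro x hx
    by_contra hcon
    rw [not_le] at hcon
    apply hx
    rw [hF]
    simp only
    rw [hz 0 x hcon, hz 1 x hcon, hz 2 x hcon]
    simp
  have hFb : ∀ x, ‖F x‖ ≤ 3 * B := by
    intro x
    rw [hF]
    simp only
    rw [norm_smul, norm_neg, norm_one, one_mul]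
    have b0 := Cu_bound hB0 (fun j x => hB s hs0 hs1 0 j x) 0 x
    have b1 := Cu_bound hB0 (fun j x => hB s hs0 hs1 1 j x) 1 x
    have b2 := Cu_bound hB0 (fun j x => hB s hs0 hs1 2 j x) 2 x
    have n1 := norm_add_le (Cu 0 (tpot U s 0) x + Cu 1 (tpot U s 1) x) (Cu 2 (tpot U s 2) x)
    have n2 := norm_add_le (Cu 0 (tpot U s 0) x) (Cu 1 (tpot U s 1) x)
    linarith
  refine ⟨F, hFc, hFd, fun x hx => (hFs x hx).trans (by linarith), ?_, ?_⟩
  · have hcont : Continuous (fun x => ‖F x‖ ^ r) :=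
      hFc.sm.continuous.norm.rpow_const fun x => Or.inr hr.le
    have hcs : HasCompactSupport (fun x => ‖F x‖ ^ r) := by
      apply HasCompactSupport.intro (isCompact_closedBall (0 : V) (2 * s))
      intro x hx
      rw [mem_closedBall_zero_iff] at hx
      have h1 : F x = 0 := by
        by_contra hcon
        exact hx (hFs x hcon)
      show ‖F x‖ ^ r = 0
      rw [h1, norm_zero, Real.zero_rpow hr.ne']
    have h3 : ∫ x, ‖F x‖ ^ r
        ≤ ∫ x, (Metric.closedBall (0 : V) (2 * s)).indicator (fun _ => (3 * B) ^ r) x := by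
      apply integral_mono (hcont.integrable_of_hasCompactSupport hcs)
      · rw [integrable_indicator_iff measurableSet_closedBall]
        exact integrableOn_const (isCompact_closedBall (0 : V) (2 * s)).measure_ne_top
      · intro x
        by_cases hx : x ∈ Metric.closedBall (0 : V) (2 * s)
        · rw [indicator_of_mem hx]
          exact Real.rpow_le_rpow (norm_nonneg _) (hFb x) hr.le
        · rw [indicator_of_notMem hx]
          rw [mem_closedBall_zero_iff] at hx
          have h1 : F x = 0 := by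
            by_contra hcon
            exact hx (hFs x hcon)
          simp only
          rw [h1, norm_zero, Real.zero_rpow hr.ne']
    rw [integral_indicator measurableSet_closedBall, setIntegral_const, smul_eq_mul] at h3
    have h4 : (volume : Measure V).real (Metric.closedBall (0 : V) (2 * s)) = 64 * s ^ 3 := by
      unfold Measure.real
      rw [Real.volume_pi_closedBall _ (by positivity)]
      rw [ENNReal.toReal_ofReal (by positivity)]
      simp
      ring
    rw [h4] at h3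
    refine h3.trans ?_
    have h5 : s ^ 3 ≤ s := by
      have : s ^ 3 ≤ s ^ 1 := pow_le_pow_of_le_one hs0.le hs1 (by norm_num)
      simpa using this
    have h6 : K * s ≤ ε := by
      rw [le_div_iff₀ (by positivity)] at hs3
      nlinarith
    calc 64 * s ^ 3 * (3 * B) ^ r = K * s ^ 3 := by rw [hK]; ring
      _ ≤ K * s := mul_le_mul_of_nonneg_left h5 hK0
      _ ≤ ε := h6
  · have ho : Metric.ball (0 : V) s ∈ 𝓝 (0 : V) := Metric.ball_mem_nhds _ hs0
    filter_upwards [ho] with x hx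
    have hpd : ∀ i j, pd j (tpot U s i) x = pd j (pot U i) x := by
      intro i j
      apply pd_congr
      filter_upwards [Metric.isOpen_ball.mem_nhds hx] with y hy
      rw [mem_ball_zero_iff] at hy
      unfold tpot
      rw [cts_one hs0 hy.le, one_mul]
    have hCu : ∀ i, Cu i (tpot U s i) x = Cu i (pot U i) x := by
      intro i
      funext k
      unfold Cu
      rw [hpd, hpd]
    have h1 := curl_pot hU hd x
    rw [Fin.sum_univ_three] at h1
    rw [hF]
    simp only
    rw [hCu, hCu, hCu, h1]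
    simp

end Pool.Agent.Run7.h407.G.X
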