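import Mathlib
import Pool.Agent.Run7.h407.DZ.Cut

/-!
Blow-up at every point from small perturbations of every datum.
-/

namespace Pool.Agent.Run7.h407.G.X

open Set Filter Topology MeasureTheory
open scoped ContDiff

variable {U : V → V}

theorem rpow_add_bound {E' : Type} [NormedAddCommGroup E'] (a b : E') {r : ℝ} (hr : 0 < r) :
    ‖a + b‖ ^ r ≤ 2 ^ r * (‖a‖ ^ r + ‖b‖ ^ r) := by
  have h1 : ‖a + b‖ ≤ 2 * max ‖a‖ ‖b‖ := by
    refine (norm_add_le a b).trans ?_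
    have := le_max_left ‖a‖ ‖b‖
    have := le_max_right ‖a‖ ‖b‖
    linarith
  have h2 : (max ‖a‖ ‖b‖) ^ r ≤ ‖a‖ ^ r + ‖b‖ ^ r := by
    rcases max_choice ‖a‖ ‖b‖ with h | h
    · rw [h]
      have := Real.rpow_nonneg (norm_nonneg b) r
      linarith
    · rw [h]
      have := Real.rpow_nonneg (norm_nonneg a) r
      linarith
  calc ‖a + b‖ ^ r ≤ (2 * max ‖a‖ ‖b‖) ^ r := Real.rpow_le_rpow (norm_nonneg _) h1 hr.le
    _ = 2 ^ r * (max ‖a‖ ‖b‖) ^ r :=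
        Real.mul_rpow (by norm_num) ((norm_nonneg a).trans (le_max_left _ _))
    _ ≤ _ := mul_le_mul_of_nonneg_left h2 (by positivity)

theorem rpow_int {F : V → V} (hF : CF F) {r : ℝ} (hr : 0 < r) :
    Integrable (fun x => ‖F x‖ ^ r) volume := by
  apply (hF.sm.continuous.norm.rpow_const fun x => Or.inr hr.le).integrable_of_hasCompactSupport
  apply hF.cs.mono'
  intro x hx
  apply subset_tsupport
  intro h0
  apply hx
  show ‖F x‖ ^ r = 0
  rw [h0, norm_zero, Real.zero_rpow hr.ne']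

/-- The perturbation of an arbitrary field near an arbitrary point. -/
theorem mainBz (δ q : ℝ) (hq : 1 < q) (hq1 : q < 5 / 4) (hq2 : q ≤ 1 + δ / 4)
    (hU : CF U) (hd : ∀ x, dvg U x = 0) (z : V) {r ε N : ℝ} (hr : 0 < r) (hr3 : r < 3)
    (hε : 0 < ε) : ∃ F : V → V, CF F ∧ (∀ x, dvg F x = 0) ∧ (∀ x, F x ≠ 0 → ‖x - z‖ ≤ ε) ∧
      ∫ x, ‖F x‖ ^ r ≤ ε ∧ ∃ (p : ℕ → V → V) (g : ℕ → Fin 3 → V → V) (ρ : ℝ),
        Fam q z (fun x => U x + F x) p g ∧ ∀ ν, 0 ≤ ν → ν ≤ N →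
          Blo δ z ρ p g ν (fun x => U x + F x) ε := by
  set η : ℝ := ε / (2 * 2 ^ r) with hη
  have h2r : (1 : ℝ) ≤ 2 ^ r := Real.one_le_rpow (by norm_num) hr.le
  have hη0 : 0 < η := by positivity
  have hηε : η ≤ ε := by
    rw [hη, div_le_iff₀ (by positivity)]
    nlinarith
  have hU' : CF (Tl (-z) U) := ⟨sm_Tl _ hU.sm, cs_Tl _ hU.cs⟩
  have hd' : ∀ x, dvg (Tl (-z) U) x = 0 := fun x => by rw [dvg_Tl, hd]
  obtain ⟨F0, a1, a2, a3, a4, a5⟩ := exists_cut hU' hd' hr hη0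
  set F1 : V → V := Tl z F0 with hF1
  have b1 : CF F1 := ⟨sm_Tl z a1.sm, cs_Tl z a1.cs⟩
  have b2 : ∀ x, dvg F1 x = 0 := fun x => by rw [hF1, dvg_Tl, a2]
  have b3 : ∀ x, F1 x ≠ 0 → ‖x - z‖ ≤ η := fun x hx => a3 _ hx
  have b4 : ∫ x, ‖F1 x‖ ^ r ≤ η := (int_Tl z (fun x => ‖F0 x‖ ^ r)).le.trans a4
  have b5 : ∀ᶠ x in 𝓝 z, U x + F1 x = 0 := by
    have h1 : Tendsto (fun x : V => x - z) (𝓝 z) (𝓝 0) := by
      have : Continuous (fun x : V => x - z) := by fun_prop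
      have h2 := this.tendsto z
      rwa [sub_self] at h2
    filter_upwards [h1.eventually a5] with x hx
    have h3 := congrFun (Tl_inv z U) x
    have h4 : Tl z (Tl (-z) U) x = Tl (-z) U (x - z) := rfl
    rw [← h3, h4]
    exact hx
  have hU1 : CF (fun x => U x + F1 x) := hU.add b1
  have hd1 : ∀ x, dvg (fun x => U x + F1 x) x = 0 := fun x => by
    rw [dvg_add hU b1, hd, b2, add_zero]
  obtain ⟨F2, c1, c2, c3, c4, p, g, ρ, hF, hB⟩ := mainB δ q hq hq1 hq2 hU1 hd1 b5 (N := N) hr hr3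
    hη0
  have e : (fun x => U x + F1 x + F2 x) = fun x => U x + (F1 x + F2 x) := by
    funext x
    rw [add_assoc]
  rw [e] at hF hB
  refine ⟨fun x => F1 x + F2 x, b1.add c1, fun x => by rw [dvg_add b1 c1, b2, c2, add_zero],
    fun x hx => ?_, ?_, p, g, ρ, hF, fun ν h0 h1 => (hB ν h0 h1).mono hηε⟩
  · by_cases h1 : F1 x = 0
    · have h2 : F2 x ≠ 0 := by
        intro h2
        apply hx
        show F1 x + F2 x = 0
        rw [h1, h2, add_zero]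
      exact (c3 x h2).trans hηε
    · exact (b3 x h1).trans hηε
  · have i1 := rpow_int b1 hr
    have i2 := rpow_int c1 hr
    have h1 : ∫ x, ‖F1 x + F2 x‖ ^ r ≤ ∫ x, 2 ^ r * (‖F1 x‖ ^ r + ‖F2 x‖ ^ r) := by
      apply integral_mono (rpow_int (b1.add c1) hr) ((i1.add i2).const_mul _)
      intro x
      exact rpow_add_bound (F1 x) (F2 x) hr
    rw [integral_const_mul, integral_add i1 i2] at h1
    refine h1.trans ?_
    have h2 : 2 ^ r * (η + η) = ε := by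
      rw [hη]
      field_simp
      ring
    calc 2 ^ r * ((∫ x, ‖F1 x‖ ^ r) + ∫ x, ‖F2 x‖ ^ r) ≤ 2 ^ r * (η + η) :=
          mul_le_mul_of_nonneg_left (add_le_add b4 c4) (by positivity)
      _ = ε := h2

end Pool.Agent.Run7.h407.G.X
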